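import Pool.Agent.R435.HT.Defs
import Pool.Agent.R435.HT.CUT
import Pool.Agent.R435.HT.EST
import Pool.Agent.R435.HT.BND
import Pool.Agent.R435.HT.HOM
import Pool.Agent.R435.HT.NZ
import Pool.Agent.R435.HT.MOL
import Pool.Agent.R435.HT.SCL
import Pool.Agent.R435.HT.WSC
import Pool.Agent.R435.HT.WMO
import Pool.Agent.R435.HT.REGP
import Pool.Agent.R435.HT.REGD
import Pool.Agent.R435.HT.PALL
import Pool.Agent.R435.HT.DALL
import Pool.Agent.R435.HT.DUAL
import Pool.Agent.R435.HT.IX1
import Pool.Agent.R435.HT.IX2
import Pool.Agent.R435.HT.SW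

/-!
# MP_f65596_an: the weak and strong extensions of `d` on the Hartogs triangle, `q = 1, 2`

`E = ℝ⁴ = ℂ²` with `z₁ = x 0 + i x 1`, `z₂ = x 2 + i x 3`, and `hartogs` is the Hartogs triangle
`|z₁| < |z₂| < 1`.  A `q`-form `f` is the family of its coefficient functions `f I`, `|I| = q`.
`WeakD q f g` says that `d f = g` in the sense of distributions on the Hartogs triangle, and
`StrongD q f g` that there are `q`-forms `F ν`, smooth on `ℝ⁴`, with `F ν → f` and
`d (F ν) → g` in `L²` of the Hartogs triangle, i.e. `d_s f = g`.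

The theorem answers Q1: `d = d_s` in degree `q = 1` and in degree `q = 2`.
-/

open MeasureTheory Set Filter Topology
open scoped ContDiff ENNReal

namespace Pool.Agent.Results.MP_f65596_an.WeakEqualsStrongHartogs

open Pool.Agent.R435.HT

theorem nz : S_NZ := pNZ pCUT pEST pLOC pBND pHOM

theorem pall : S_PALL := pPALL nz (pREGP pMOL pEXM pSCL pWSC pWMO)

theorem dall : S_DALL := pDALL nz (pREGD pMOL pEXM pSCL pWSC pWMO)

/-- For `q = 1` and for `q = 2`, and all square integrable forms `f` (degree `q`) and `g`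
(degree `q + 1`) on the Hartogs triangle: `d f = g` in the sense of distributions if and only if
`d_s f = g`.  Hence `d = d_s` as operators in these degrees. -/
theorem result : ∀ q : ℕ, q = 1 ∨ q = 2 → ∀ f g : Form, L2Form q f → L2Form (q + 1) g →
    (WeakD q f g ↔ StrongD q f g) := by
  intro q hq f g hf hg
  refine ⟨fun h => ?_, fun h => pSW q f g hf hg h⟩
  rcases hq with rfl | rfl
  · exact pIX1 pall f g hf hg h
  · exact pIX2 dall pDUAL f g hf hg h

end Pool.Agent.Results.MP_f65596_an.WeakEqualsStrongHartogs
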